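import Pool.Agent.W2helper37.SG.Stm

/-!
# Piece SC of project SG: invariance
-/

set_option autoImplicit false

open Pool.Agent.W2helper37.SG

namespace Pool.Agent.W2helper17.SG

universe w

variable {K : Type w} [Field K] {ι : Type} [Fintype ι] [DecidableEq ι] {o : ι → Bool}
  {Q : Type w} [AddCommGroup Q] [Module K Q] {A : ι → ι → Module.End K Q}

theorem comm_even (h : GlRel o A) {c c' : ι} (hc : o c = o c') (l j : ι) :
    A c c' * A l j - A l j * A c c' =
      sg K (o c) • ((if c = j then A l c' else 0) - (if l = c' then A c j else 0)) := by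
  have h1 := h c c' l j
  rw [← hc] at h1
  by_cases h2 : c = j
  · subst h2
    by_cases h3 : l = c'
    · subst h3
      rw [← hc] at h1
      cases h4 : o c <;> simp [cc, sg, h4] at h1 ⊢ <;> first | exact h1 | (rw [h1]; abel)
    · cases h4 : o c <;> cases h5 : o l <;> simp [cc, sg, h4, h5, h3] at h1 ⊢ <;> exact h1
  · by_cases h3 : l = c'
    · subst h3
      rw [← hc] at h1
      cases h4 : o c <;> cases h5 : o j <;> simp [cc, sg, h4, h5, h2] at h1 ⊢ <;> exact h1
    · cases h4 : o c <;> cases h5 : o j <;> cases h6 : o l <;>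
        simp [cc, sg, h4, h5, h6, h2, h3] at h1 ⊢ <;> exact h1

theorem comm_prod (h : GlRel o A) {c c' : ι} (hc : o c = o c') (l j l' j' : ι) :
    A c c' * (A l j * A l' j') - (A l j * A l' j') * A c c' =
      sg K (o c) • (((if c = j then A l c' * A l' j' else 0) -
        (if l = c' then A c j * A l' j' else 0)) +
        ((if c = j' then A l j * A l' c' else 0) - (if l' = c' then A l j * A c j' else 0))) := by
  have h1 : A c c' * (A l j * A l' j') - (A l j * A l' j') * A c c' =
      (A c c' * A l j - A l j * A c c') * A l' j' +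
        A l j * (A c c' * A l' j' - A l' j' * A c c') := by noncomm_ring
  rw [h1, comm_even h hc, comm_even h hc, smul_mul_assoc, mul_smul_comm, ← smul_add]
  congr 1
  rw [sub_mul, mul_sub]
  simp only [ite_mul, mul_ite, zero_mul, mul_zero]

theorem comm_XX (h : GlRel o A) {c c' : ι} (hc : o c = o c') (b : Bool) :
    Commute (XX o A b) (A c c') := by
  symm
  rw [commute_iff_eq, ← sub_eq_zero]
  unfold XX
  simp only [Finset.mul_sum, Finset.sum_mul]
  rw [← Finset.sum_sub_distrib]
  simp only [← Finset.sum_sub_distrib]
  simp only [comm_prod h hc]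
  simp only [← Finset.smul_sum]
  simp only [Finset.sum_add_distrib, Finset.sum_sub_distrib]
  by_cases hb : o c = b
  · have hb' : o c' = b := hc ▸ hb
    have e1 : ∑ x with o x = b, ∑ y with o y ≠ b, (if c = y then A x c' * A y x else 0) = 0 := by
      refine Finset.sum_eq_zero fun x _ => Finset.sum_eq_zero fun y hy => ?_
      rw [if_neg]
      rintro rfl
      exact (Finset.mem_filter.1 hy).2 hb
    have e2 : ∑ x with o x = b, ∑ y with o y ≠ b, (if y = c' then A x y * A c x else 0) = 0 := by
      refine Finset.sum_eq_zero fun x _ => Finset.sum_eq_zero fun y hy => ?_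
      rw [if_neg]
      rintro rfl
      exact (Finset.mem_filter.1 hy).2 hb'
    have e3 : ∑ x with o x = b, ∑ y with o y ≠ b, (if x = c' then A c y * A y x else 0) =
        ∑ y with o y ≠ b, A c y * A y c' := by
      rw [Finset.sum_comm]
      refine Finset.sum_congr rfl fun y _ => ?_
      rw [Finset.sum_ite_eq']
      exact if_pos (by simp [hb'])
    have e4 : ∑ x with o x = b, ∑ y with o y ≠ b, (if c = x then A x y * A y c' else 0) =
        ∑ y with o y ≠ b, A c y * A y c' := by
      rw [Finset.sum_comm]
      refine Finset.sum_congr rfl fun y _ => ?_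
      rw [Finset.sum_ite_eq]
      exact if_pos (by simp [hb])
    rw [e1, e2, e3, e4]
    simp
  · have hb' : o c' ≠ b := hc ▸ hb
    have e1 : ∑ x with o x = b, ∑ y with o y ≠ b, (if c = y then A x c' * A y x else 0) =
        ∑ x with o x = b, A x c' * A c x := by
      refine Finset.sum_congr rfl fun x _ => ?_
      rw [Finset.sum_ite_eq]
      exact if_pos (by simp [hb])
    have e2 : ∑ x with o x = b, ∑ y with o y ≠ b, (if y = c' then A x y * A c x else 0) =
        ∑ x with o x = b, A x c' * A c x := by
      refine Finset.sum_congr rfl fun x _ => ?_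
      rw [Finset.sum_ite_eq']
      exact if_pos (by simp [hb'])
    have e3 : ∑ x with o x = b, ∑ y with o y ≠ b, (if x = c' then A c y * A y x else 0) = 0 := by
      refine Finset.sum_eq_zero fun x hx => Finset.sum_eq_zero fun y _ => ?_
      rw [if_neg]
      rintro rfl
      exact hb' (Finset.mem_filter.1 hx).2
    have e4 : ∑ x with o x = b, ∑ y with o y ≠ b, (if c = x then A x y * A y c' else 0) = 0 := by
      refine Finset.sum_eq_zero fun x hx => Finset.sum_eq_zero fun y _ => ?_
      rw [if_neg]
      rintro rfl
      exact hb (Finset.mem_filter.1 hx).2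
    rw [e1, e2, e3, e4]
    simp

theorem inv_aux [CharZero K] [Module.Finite K Q] (b : Bool) (B : ι → ι → Module.End K Q)
    (y : Module.End K Q) (s : K) (hs : s ≠ 0)
    (hy : ∀ c c', o c = b → o c' = b → Commute y (A c c'))
    (h : ∀ c c' k i, o c = b → o c' = b → o k = b → o i = b →
      A c c' * B k i - B k i * A c c' =
        s • ((if c = i then B k c' else 0) - (if k = c' then B c i else 0)))
    (k i : ι) (hk : o k = b) (hi : o i = b) :
    LinearMap.trace K Q (y * B k i) =
      if k = i then (∑ j with o j = b, LinearMap.trace K Q (y * B j j)) / num o b else 0 := by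
  have h1 : ∀ k₀ c i, o k₀ = b → o c = b → o i = b →
      LinearMap.trace K Q (y * B c i) =
        if c = i then LinearMap.trace K Q (y * B k₀ k₀) else 0 := by
    intro k₀ c i hk₀ hc hi
    have h2 := h c k₀ k₀ i hc hk₀ hk₀ hi
    have h3 : LinearMap.trace K Q (y * (A c k₀ * B k₀ i - B k₀ i * A c k₀)) = 0 := by
      rw [mul_sub, map_sub, ← mul_assoc, (hy c k₀ hc hk₀).eq, mul_assoc,
        LinearMap.trace_mul_comm, mul_assoc, sub_self]
    rw [h2, if_pos rfl, mul_smul_comm, map_smul, smul_eq_mul, mul_eq_zero] at h3
    have h4 := h3.resolve_left hs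
    rw [mul_sub, map_sub, sub_eq_zero] at h4
    rw [← h4]
    split_ifs with h5
    · rfl
    · simp
  rw [h1 k k i hk hk hi]
  by_cases hki : k = i
  · rw [if_pos hki, if_pos hki]
    have hn : (num o b : K) ≠ 0 := by
      rw [Nat.cast_ne_zero]
      unfold num
      exact Finset.card_ne_zero_of_mem (Finset.mem_filter.2 ⟨Finset.mem_univ k, hk⟩)
    rw [eq_div_iff hn]
    have h6 : ∀ j ∈ Finset.univ.filter (fun j => o j = b),
        LinearMap.trace K Q (y * B j j) = LinearMap.trace K Q (y * B k k) := by
      intro j hj
      have h7 := h1 k j j hk (Finset.mem_filter.1 hj).2 (Finset.mem_filter.1 hj).2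
      rwa [if_pos rfl] at h7
    rw [Finset.sum_congr rfl h6, Finset.sum_const, nsmul_eq_mul, mul_comm]
    rfl
  · rw [if_neg hki, if_neg hki]

theorem sg_ne_zero (b : Bool) : sg K b ≠ 0 := by
  cases b <;> simp [sg]

theorem p_sc : P_SC.{w} := by
  intro K _ _ ι _ _ o Q _ _ _ A h
  refine ⟨fun c c' hc => ?_, fun y hy k i hki => ⟨?_, ?_⟩⟩
  · exact (comm_XX h hc false).sub_left (comm_XX h hc true)
  · have h1 := inv_aux (A := A) (o := o) (o k) (fun k' i' => ∑ j with o j ≠ o k, A k' j * A j i') y
      (sg K (o k)) (sg_ne_zero _) (fun c c' hc hc' => hy c c' (hc.trans hc'.symm)) (by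
        intro c c' k' i' hc hc' hk' hi'
        rw [Finset.mul_sum, Finset.sum_mul, ← Finset.sum_sub_distrib]
        have h2 : ∀ j ∈ Finset.univ.filter (fun j => o j ≠ o k),
            A c c' * (A k' j * A j i') - A k' j * A j i' * A c c' =
              sg K (o k) • ((if c = i' then A k' j * A j c' else 0) -
                (if k' = c' then A c j * A j i' else 0)) := by
          intro j hj
          have hj' := (Finset.mem_filter.1 hj).2
          rw [comm_prod h (hc.trans hc'.symm), hc]
          rw [if_neg (show ¬ c = j from fun h' => hj' (h' ▸ hc)),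
            if_neg (show ¬ j = c' from fun h' => hj' (h' ▸ hc'))]
          congr 1
          abel
        rw [Finset.sum_congr rfl h2, ← Finset.smul_sum, Finset.sum_sub_distrib]
        congr 2
        · split_ifs <;> simp
        · split_ifs <;> simp) k i rfl hki.symm
    have h3 : ∑ j with o j ≠ o k, LinearMap.trace K Q (y * (A k j * A j i)) =
        LinearMap.trace K Q (y * ∑ j with o j ≠ o k, A k j * A j i) := by
      rw [Finset.mul_sum, map_sum]
    rw [h3, h1]
    congr 2
    unfold XX
    rw [Finset.mul_sum, map_sum]
  · have h1 := inv_aux (A := A) (o := o) (o k) (fun k' i' => ∑ j with o j ≠ o k, A j i' * A k' j) y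
      (sg K (o k)) (sg_ne_zero _) (fun c c' hc hc' => hy c c' (hc.trans hc'.symm)) (by
        intro c c' k' i' hc hc' hk' hi'
        rw [Finset.mul_sum, Finset.sum_mul, ← Finset.sum_sub_distrib]
        have h2 : ∀ j ∈ Finset.univ.filter (fun j => o j ≠ o k),
            A c c' * (A j i' * A k' j) - A j i' * A k' j * A c c' =
              sg K (o k) • ((if c = i' then A j c' * A k' j else 0) -
                (if k' = c' then A j i' * A c j else 0)) := by
          intro j hj
          have hj' := (Finset.mem_filter.1 hj).2
          rw [comm_prod h (hc.trans hc'.symm), hc]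
          rw [if_neg (show ¬ c = j from fun h' => hj' (h' ▸ hc)),
            if_neg (show ¬ j = c' from fun h' => hj' (h' ▸ hc'))]
          congr 1
          abel
        rw [Finset.sum_congr rfl h2, ← Finset.smul_sum, Finset.sum_sub_distrib]
        congr 2
        · split_ifs <;> simp
        · split_ifs <;> simp) k i rfl hki.symm
    have h3 : ∑ j with o j ≠ o k, LinearMap.trace K Q (A k j * y * A j i) =
        LinearMap.trace K Q (y * ∑ j with o j ≠ o k, A j i * A k j) := by
      rw [Finset.mul_sum, map_sum]
      refine Finset.sum_congr rfl fun j _ => ?_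
      rw [mul_assoc, LinearMap.trace_mul_comm, mul_assoc]
    rw [h3, h1]
    congr 2
    unfold XX
    rw [Finset.mul_sum, map_sum]
    simp only [Finset.mul_sum, map_sum]
    rw [Finset.sum_comm]
    have e1 : ∀ j : ι, (o j ≠ o k) ↔ (o j = !(o k)) := by
      intro j
      cases o j <;> cases o k <;> simp
    have e2 : ∀ j : ι, (o j = o k) ↔ (o j ≠ !(o k)) := by
      intro j
      cases o j <;> cases o k <;> simp
    simp only [e1, e2]

end Pool.Agent.W2helper17.SG
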